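import Pool.Agent.T2H30.EC.Cls

/-!
PACKAGE AS (50-75 min). The copies of `F` in `HG K` are exactly the `|K|^3` null lines, they are edge-disjoint and cover
all the edges.

For `(x, y, τ) ∈ K^3` let `L = L(x, y, τ) : V → V × K × K`, `L v = (v, x + τ * lev v, y + τ^2 * lev v)`.
It is an embedding of `F` into `HG K` (`(τ (lev w - lev u))^2 = (lev w - lev u) * (τ^2 (lev w - lev u))`).
Designated copy: the subgraph `D(x, y, τ)` of `HG K` with vertices `range L` and adjacency
`p ~ r ↔ ∃ u w, F.Adj u w ∧ p = L u ∧ r = L w`.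
(1) `F ≃g (D(x, y, τ)).coe`.
(2) `(x, y, τ) ↦ D(x, y, τ)` is injective; two different designated copies have disjoint edge sets: an edge
`(u, y₁, z₁) ~ (w, y₂, z₂)` of `D(x, y, τ)` determines `τ = (y₂ - y₁) / (lev w - lev u)`, `x = y₁ - τ lev u`, `y = z₁ - τ^2 lev u`
(`lev u ≠ lev w` in `K` by `hinj`, since `u ≠ w`).
(3) every edge of `HG K` is in such a `D(x, y, τ)` (same formulas).
(4) every subgraph `S` with `F ≃g S.coe` is some `D(x, y, τ)`: the isomorphism composed with the inclusion is an injective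
`φ : F →g HG K`; by `cls` it is `φ v = L (σ v)` with `σ` injective, hence bijective (`Finite.injective_iff_bijective`).
`S.verts = range φ = range L`. `S.Adj p r ↔ ∃ u w, F.Adj u w ∧ p = φ u ∧ r = φ w`; and `F.Adj u w → F.Adj (σ u) (σ w)`
(first component of the adjacency in `HG K`), and conversely, since `σ × σ` maps the finite set of pairs
`{(u, w) | F.Adj u w}` injectively into itself, so it is onto. Hence `S = D(x, y, τ)`.
(5) `𝒞 = Finset.univ.image D` has `|K|^3` elements (injectivity).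
-/

set_option autoImplicit false

namespace Pool.Agent.T2H30.EC

/-- the null line through `(0, x, y)` with the slope `τ`; `t = (x, y, τ)` -/
def Ln {K : Type} [Field K] (t : K × K × K) (v : V) : V × K × K :=
  (v, t.1 + t.2.2 * lev v, t.2.1 + t.2.2 ^ 2 * lev v)

lemma Ln_inj {K : Type} [Field K] (t : K × K × K) : Function.Injective (Ln t) :=
  fun _ _ h => (Prod.ext_iff.mp h).1

lemma Ln_adj {K : Type} [Field K] (t : K × K × K) {u w : V} (h : F.Adj u w) :
    (HG K).Adj (Ln t u) (Ln t w) := by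
  refine ⟨h, ?_⟩
  simp only [Ln]
  ring

/-- the designated copy of `F` on the null line of `t` -/
def Dg {K : Type} [Field K] (t : K × K × K) : (HG K).Subgraph where
  verts := Set.range (Ln t)
  Adj p r := ∃ u w, F.Adj u w ∧ p = Ln t u ∧ r = Ln t w
  adj_sub := by
    rintro p r ⟨u, w, h, rfl, rfl⟩
    exact Ln_adj t h
  edge_vert := by
    rintro p r ⟨u, w, h, rfl, rfl⟩
    exact ⟨u, rfl⟩
  symm := ⟨by
    rintro p r ⟨u, w, h, rfl, rfl⟩
    exact ⟨w, u, h.symm, rfl, rfl⟩⟩

/-- the parameters of the null line through two adjacent points -/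
def tof {K : Type} [Field K] (p r : V × K × K) : K × K × K :=
  (p.2.1 - (r.2.1 - p.2.1) / ((lev r.1 : K) - lev p.1) * lev p.1,
   p.2.2 - ((r.2.1 - p.2.1) / ((lev r.1 : K) - lev p.1)) ^ 2 * lev p.1,
   (r.2.1 - p.2.1) / ((lev r.1 : K) - lev p.1))

lemma lev_ne {K : Type} [Field K] (hinj : Function.Injective fun v : V => (lev v : K)) {u w : V}
    (h : F.Adj u w) : (lev w : K) - lev u ≠ 0 := by
  intro h0
  have h1 : (lev w : K) = lev u := sub_eq_zero.mp h0
  have h2 : w = u := hinj h1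
  subst h2
  exact F.loopless.irrefl _ h

lemma tof_eq {K : Type} [Field K] (hinj : Function.Injective fun v : V => (lev v : K))
    {t : K × K × K} {p r : V × K × K} (h : (Dg t).Adj p r) : t = tof p r := by
  obtain ⟨u, w, h, rfl, rfl⟩ := h
  have hne := lev_ne hinj h
  have hτ : (t.1 + t.2.2 * (lev w : K) - (t.1 + t.2.2 * (lev u : K))) / ((lev w : K) - lev u) = t.2.2 := by
    rw [div_eq_iff hne]
    ring
  simp only [tof, Ln]
  rw [hτ]
  refine Prod.ext ?_ (Prod.ext ?_ rfl)
  · simp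
  · simp

lemma tof_adj {K : Type} [Field K] (hinj : Function.Injective fun v : V => (lev v : K))
    {p r : V × K × K} (h : (HG K).Adj p r) : (Dg (tof p r)).Adj p r := by
  obtain ⟨h1, h2⟩ := h
  have hne := lev_ne hinj h1
  refine ⟨p.1, r.1, h1, ?_, ?_⟩
  · refine Prod.ext rfl (Prod.ext ?_ ?_)
    · simp only [tof, Ln]; ring
    · simp only [tof, Ln]; ring
  · refine Prod.ext rfl (Prod.ext ?_ ?_)
    · simp only [tof, Ln]
      field_simp
      ring
    · simp only [tof, Ln]
      have e : r.2.2 - p.2.2 = (r.2.1 - p.2.1) ^ 2 / ((lev r.1 : K) - lev p.1) := by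
        rw [h2]
        field_simp
      have e2 : r.2.2 = p.2.2 + (r.2.1 - p.2.1) ^ 2 / ((lev r.1 : K) - lev p.1) := by
        rw [← e]; ring
      rw [e2]
      field_simp
      ring

lemma Dg_iso {K : Type} [Field K] (t : K × K × K) : Nonempty (F ≃g (Dg t).coe) := by
  refine ⟨⟨Equiv.ofInjective (Ln t) (Ln_inj t), ?_⟩⟩
  intro u w
  constructor
  · intro h
    have h' : (Dg t).Adj (Ln t u) (Ln t w) := h
    obtain ⟨u', w', h1, h2, h3⟩ := h'
    rw [Ln_inj t h2, Ln_inj t h3]
    exact h1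
  · intro h
    show (Dg t).Adj (Ln t u) (Ln t w)
    exact ⟨u, w, h, rfl, rfl⟩

lemma adj_of_inj {σ : V → V} (hσ : Function.Injective σ) (hF : ∀ u w, F.Adj u w → F.Adj (σ u) (σ w))
    {u w : V} (h : F.Adj (σ u) (σ w)) : F.Adj u w := by
  let f : {p : V × V // F.Adj p.1 p.2} → {p : V × V // F.Adj p.1 p.2} :=
    fun p => ⟨(σ p.1.1, σ p.1.2), hF _ _ p.2⟩
  have hf : Function.Injective f := by
    intro p r hpr
    have h1 := congrArg Subtype.val hpr
    have h2 : σ p.1.1 = σ r.1.1 := (Prod.ext_iff.mp h1).1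
    have h3 : σ p.1.2 = σ r.1.2 := (Prod.ext_iff.mp h1).2
    exact Subtype.ext (Prod.ext (hσ h2) (hσ h3))
  have hs : Function.Surjective f := Finite.injective_iff_surjective.mp hf
  obtain ⟨p, hp⟩ := hs ⟨(σ u, σ w), h⟩
  have h1 := congrArg Subtype.val hp
  have h2 : σ p.1.1 = σ u := (Prod.ext_iff.mp h1).1
  have h3 : σ p.1.2 = σ w := (Prod.ext_iff.mp h1).2
  rw [← hσ h2, ← hσ h3]
  exact p.2

lemma eq_Dg {K : Type} [Field K] (hinj : Function.Injective fun v : V => (lev v : K))
    (h1 : ¬ IsSquare (-1 : K)) (S : (HG K).Subgraph) (hS : Nonempty (F ≃g S.coe)) :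
    ∃ t, S = Dg t := by
  obtain ⟨e⟩ := hS
  let φ : F →g HG K := S.hom.comp e.toHom
  have hφv : ∀ v, φ v = (e v : V × K × K) := fun v => rfl
  have hφ : Function.Injective φ := by
    intro v w h
    rw [hφv, hφv] at h
    exact e.injective (Subtype.ext h)
  obtain ⟨x, y, τ, σ, hσ, hL⟩ := cls hinj h1 φ hφ
  have hL' : ∀ v, (e v : V × K × K) = Ln (x, y, τ) (σ v) := fun v => by rw [← hφv, hL]; rfl
  have hσs : Function.Surjective σ := Finite.injective_iff_surjective.mp hσ
  have hF : ∀ u w, F.Adj u w → F.Adj (σ u) (σ w) := by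
    intro u w h
    have h2 : (HG K).Adj (φ u) (φ w) := φ.map_adj h
    rw [hφv, hφv, hL', hL'] at h2
    exact h2.1
  refine ⟨(x, y, τ), ?_⟩
  have hadj : ∀ u w, S.Adj (e u : V × K × K) (e w) ↔ F.Adj u w := by
    intro u w
    have h2 : S.coe.Adj (e u) (e w) ↔ F.Adj u w := e.map_adj_iff
    rw [← h2]
    rfl
  apply SimpleGraph.Subgraph.ext
  · ext p
    constructor
    · intro hp
      refine ⟨σ (e.symm ⟨p, hp⟩), ?_⟩
      rw [← hL']
      simp
    · rintro ⟨v, rfl⟩
      obtain ⟨u, rfl⟩ := hσs v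
      rw [← hL']
      exact (e u).2
  · funext p r
    apply propext
    constructor
    · intro h
      have hp : p ∈ S.verts := S.edge_vert h
      have hr : r ∈ S.verts := S.edge_vert h.symm
      have ep : ((e (e.symm ⟨p, hp⟩) : S.verts) : V × K × K) = p := by simp
      have er : ((e (e.symm ⟨r, hr⟩) : S.verts) : V × K × K) = r := by simp
      refine ⟨σ (e.symm ⟨p, hp⟩), σ (e.symm ⟨r, hr⟩), ?_, ?_, ?_⟩
      · apply hF
        rw [← hadj, ep, er]
        exact h
      · rw [← hL', ep]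
      · rw [← hL', er]
    · rintro ⟨u, w, h, rfl, rfl⟩
      obtain ⟨u0, rfl⟩ := hσs u
      obtain ⟨w0, rfl⟩ := hσs w
      rw [← hL', ← hL', hadj]
      exact adj_of_inj hσ hF h

lemma Dg_inj {K : Type} [Field K] (hinj : Function.Injective fun v : V => (lev v : K)) :
    Function.Injective (Dg : K × K × K → (HG K).Subgraph) := by
  intro t t' h
  have hF : F.Adj (V.a 0) (V.q 0) := Or.inl rfl
  have h1 : (Dg t).Adj (Ln t (V.a 0)) (Ln t (V.q 0)) := ⟨_, _, hF, rfl, rfl⟩
  have h2 : (Dg t').Adj (Ln t (V.a 0)) (Ln t (V.q 0)) := by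
    rw [← h]; exact h1
  rw [tof_eq hinj h1]
  exact (tof_eq hinj h2).symm

theorem exact_union {K : Type} [Field K] [Fintype K]
    (hinj : Function.Injective fun v : V => (lev v : K)) (h1 : ¬ IsSquare (-1 : K)) :
    ∃ 𝒞 : Finset (HG K).Subgraph, IsExactUnion F (HG K) 𝒞 ∧ 𝒞.card = Fintype.card K ^ 3 := by
  classical
  refine ⟨Finset.univ.image (Dg : K × K × K → (HG K).Subgraph), ⟨?_, ?_, ?_⟩, ?_⟩
  · intro S
    constructor
    · intro hS
      obtain ⟨t, -, rfl⟩ := Finset.mem_image.mp hS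
      exact Dg_iso t
    · intro hS
      obtain ⟨t, rfl⟩ := eq_Dg hinj h1 S hS
      exact Finset.mem_image_of_mem _ (Finset.mem_univ t)
  · intro S hS T hT hne
    obtain ⟨t, -, rfl⟩ := Finset.mem_image.mp hS
    obtain ⟨t', -, rfl⟩ := Finset.mem_image.mp hT
    rw [Set.disjoint_left]
    intro e
    induction e using Sym2.ind with
    | _ p r =>
      intro h2 h3
      rw [SimpleGraph.Subgraph.mem_edgeSet] at h2 h3
      apply hne
      rw [tof_eq hinj h2, ← tof_eq hinj h3]
  · ext e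
    induction e using Sym2.ind with
    | _ p r =>
      simp only [Set.mem_iUnion, exists_prop, SimpleGraph.Subgraph.mem_edgeSet, SimpleGraph.mem_edgeSet]
      constructor
      · rintro ⟨S, -, h⟩
        exact S.adj_sub h
      · intro h
        exact ⟨Dg (tof p r), Finset.mem_image_of_mem _ (Finset.mem_univ _), tof_adj hinj h⟩
  · rw [Finset.card_image_of_injective _ (Dg_inj hinj), Finset.card_univ, Fintype.card_prod,
      Fintype.card_prod]
    ring

end Pool.Agent.T2H30.EC
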