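import Pool.Agent.T2H30.EC.Defs

/-!
PACKAGE LB (40-60 min). Lower bound `ex(n, F) ≥ c n^(3/2)` for all large `n`: `F` contains the 4-cycle
`a 0, q 0, a 1, q 1`, so every graph without a 4-cycle is `F`-free.

Paper proof. For a prime `p` with `2 p^2 ≤ n` take the bipartite graph on `Bool × ZMod p × ZMod p` (points `(x, y)`, lines
`(m, b)`), incidence `y = m x + b`: it has `p^3` edges and no 4-cycle (two points with different `x` are on at most one line, two points with
the same `x` and different `y` on none). Embed `Bool × ZMod p × ZMod p` into `Fin n` (`2 p^2 ≤ n`) and use `SimpleGraph.map`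
(`SimpleGraph.card_edgeFinset_map`), then `SimpleGraph.card_edgeFinset_le_extremalNumber`.
The prime: `k = ⌊√(n/8)⌋` (so `8 k^2 ≤ n < 8 (k+1)^2`), `Nat.exists_prime_lt_and_le_two_mul k`: `k < p ≤ 2k`, so
`2 p^2 ≤ 8 k^2 ≤ n` and `p ≥ k + 1 > √(n/8)`, so `p^3 ≥ (n/8)^(3/2)`.
-/

set_option autoImplicit false

namespace Pool.Agent.T2H30.EC

open Filter Topology

/-- incidence of the point `x` and the line `y` -/
def inc {K : Type} [Field K] (x y : K × K) : Prop := x.2 = y.1 * x.1 + y.2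

/-- the point-line incidence graph of the affine plane (without vertical lines) -/
def IG (K : Type) [Field K] : SimpleGraph (Bool × K × K) where
  Adj x y := (x.1 = false ∧ y.1 = true ∧ inc x.2 y.2) ∨ (y.1 = false ∧ x.1 = true ∧ inc y.2 x.2)
  symm := ⟨fun _ _ h => h.symm⟩
  loopless := ⟨by rintro x (⟨h1, h2, -⟩ | ⟨h1, h2, -⟩) <;> simp [h1] at h2⟩

theorem inc_unique {K : Type} [Field K] {x x' y y' : K × K} (h1 : inc x y) (h2 : inc x y')
    (h3 : inc x' y) (h4 : inc x' y') (hx : x ≠ x') : y = y' := by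
  unfold inc at *
  have hne : x.1 ≠ x'.1 := by
    intro h
    apply hx
    refine Prod.ext h ?_
    rw [h1, h3, h]
  have h5 : (y.1 - y'.1) * (x.1 - x'.1) = 0 := by linear_combination -h1 + h2 + h3 - h4
  rcases mul_eq_zero.1 h5 with h6 | h6
  · have h7 : y.1 = y'.1 := sub_eq_zero.1 h6
    refine Prod.ext h7 ?_
    rw [h7] at h1
    linear_combination h2 - h1
  · exact absurd (sub_eq_zero.1 h6) hne

theorem IG_c4 {K : Type} [Field K] {u v w z : Bool × K × K} (h1 : (IG K).Adj u v)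
    (h2 : (IG K).Adj w v) (h3 : (IG K).Adj w z) (h4 : (IG K).Adj u z) (huw : u ≠ w) : v = z := by
  simp only [IG] at h1 h2 h3 h4
  rcases h1 with ⟨a1, b1, c1⟩ | ⟨a1, b1, c1⟩ <;> rcases h2 with ⟨a2, b2, c2⟩ | ⟨a2, b2, c2⟩ <;>
    rcases h3 with ⟨a3, b3, c3⟩ | ⟨a3, b3, c3⟩ <;> rcases h4 with ⟨a4, b4, c4⟩ | ⟨a4, b4, c4⟩ <;>
    simp_all
  · have h : u.2 ≠ w.2 := fun h => huw (Prod.ext (by simp_all) h)
    exact Prod.ext (by simp_all) (inc_unique c1 c4 c2 c3 h)
  · have h : u.2 ≠ w.2 := fun h => huw (Prod.ext (by simp_all) h)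
    by_contra hvz
    have hvz' : v.2 ≠ z.2 := fun h => hvz (Prod.ext (by simp_all) h)
    exact h (inc_unique c1 c2 c4 c3 hvz')

theorem IG_card (K : Type) [Field K] [Fintype K] [DecidableRel (IG K).Adj] [DecidableEq K] :
    (Fintype.card K) ^ 3 ≤ (IG K).edgeFinset.card := by
  have h1 : (Finset.univ : Finset (K × K × K)).card = (Fintype.card K) ^ 3 := by
    rw [Finset.card_univ, Fintype.card_prod, Fintype.card_prod]
    ring
  rw [← h1]
  apply Finset.card_le_card_of_injOn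
    (fun t : K × K × K => s(((false, t.1, t.2.1 * t.1 + t.2.2) : Bool × K × K), (true, t.2.1, t.2.2)))
  · intro t _
    simp [IG, inc]
  · intro t _ t' _ h
    simp only [Sym2.eq_iff, Prod.mk.injEq, true_and, Bool.false_eq_true, false_and, and_false,
      or_false, reduceCtorEq] at h
    obtain ⟨⟨h1, -⟩, h2, h3⟩ := h
    exact Prod.ext h1 (Prod.ext h2 h3)

theorem free_map {K : Type} [Field K] {n : ℕ} (f : (Bool × K × K) ↪ Fin n) :
    F.Free ((IG K).map f) := by
  rintro ⟨φ⟩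
  have hA : ∀ i j, F.Adj (V.a i) (V.q j) := fun i j => Or.inl rfl
  have h : ∀ i j, ∃ u v, (IG K).Adj u v ∧ f u = φ (V.a i) ∧ f v = φ (V.q j) := by
    intro i j
    have := φ.toHom.map_adj (hA i j)
    simpa [SimpleGraph.map_adj] using this
  obtain ⟨u, v, h1, e1, e2⟩ := h 0 0
  obtain ⟨w, v', h2, e3, e4⟩ := h 1 0
  obtain ⟨w', z, h3, e5, e6⟩ := h 1 1
  obtain ⟨u', z', h4, e7, e8⟩ := h 0 1
  have hv : v' = v := f.injective (e4.trans e2.symm)
  have hw : w' = w := f.injective (e5.trans e3.symm)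
  have hz : z' = z := f.injective (e8.trans e6.symm)
  have hu : u' = u := f.injective (e7.trans e1.symm)
  subst hv hw hz hu
  have huw : u' ≠ w' := by
    intro hh
    rw [hh, e5] at e7
    have := φ.injective e7
    simp at this
  have := IG_c4 h1 h2 h3 h4 huw
  rw [this, e8] at e4
  have := φ.injective e4
  simp at this

theorem lb : ∃ c : ℝ, 0 < c ∧ ∀ᶠ n : ℕ in atTop,
    c * (n : ℝ) ^ (3 / 2 : ℝ) ≤ SimpleGraph.extremalNumber n F := by
  classical
  refine ⟨1 / 64, by norm_num, ?_⟩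
  filter_upwards [eventually_ge_atTop 8] with n hn
  obtain ⟨k, hk1, hk2⟩ : ∃ k, 8 * k ^ 2 ≤ n ∧ n < 8 * (k + 1) ^ 2 := by
    refine ⟨Nat.sqrt (n / 8), ?_, ?_⟩
    · have := Nat.sqrt_le' (n / 8)
      omega
    · have := Nat.lt_succ_sqrt' (n / 8)
      simp only [Nat.succ_eq_add_one] at this
      omega
  have hk0 : k ≠ 0 := by
    rintro rfl
    simp at hk2
    omega
  obtain ⟨p, hp, hp1, hp2⟩ := Nat.exists_prime_lt_and_le_two_mul k hk0
  haveI : Fact p.Prime := ⟨hp⟩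
  have hcard : Fintype.card (Bool × ZMod p × ZMod p) ≤ Fintype.card (Fin n) := by
    rw [Fintype.card_prod, Fintype.card_prod, Fintype.card_bool, ZMod.card, Fintype.card_fin]
    nlinarith
  obtain ⟨f⟩ := Function.Embedding.nonempty_of_card_le hcard
  have h1 := SimpleGraph.card_edgeFinset_le_extremalNumber (free_map f)
  rw [Fintype.card_fin, SimpleGraph.card_edgeFinset_map] at h1
  have h2 := IG_card (ZMod p)
  rw [ZMod.card] at h2
  have h3 : (p : ℝ) ^ 3 ≤ SimpleGraph.extremalNumber n F := by exact_mod_cast h2.trans h1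
  have h4 : (n : ℝ) ^ (3 / 2 : ℝ) ≤ (4 * (p : ℝ)) ^ 3 := by
    have h5 : (n : ℝ) ≤ (4 * (p : ℝ)) ^ 2 := by
      have h6 : n ≤ (4 * p) ^ 2 := by
        have : (k + 1) ^ 2 ≤ p ^ 2 := Nat.pow_le_pow_left hp1 2
        nlinarith
      exact_mod_cast h6
    calc (n : ℝ) ^ (3 / 2 : ℝ) ≤ ((4 * (p : ℝ)) ^ 2) ^ (3 / 2 : ℝ) :=
          Real.rpow_le_rpow (by positivity) h5 (by norm_num)
      _ = (4 * (p : ℝ)) ^ 3 := by
          rw [← Real.rpow_natCast, ← Real.rpow_mul (by positivity), ← Real.rpow_natCast]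
          norm_num
  calc 1 / 64 * (n : ℝ) ^ (3 / 2 : ℝ) ≤ 1 / 64 * (4 * (p : ℝ)) ^ 3 := by gcongr
    _ = (p : ℝ) ^ 3 := by ring
    _ ≤ _ := h3

end Pool.Agent.T2H30.EC
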