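import Pool.Agent.T2H30.EC.UB
import Pool.Agent.T2H30.EC.LB
import Pool.Agent.T2H30.EC.Asm

/-!
PACKAGE FN (30-45 min). The final theorem from `ub`, `lb`, `exact_union`.

Take `V₀ = V`, `F`, `α = 3/2`, `ε = 19^(-3/2)`. Given `N`, take a prime `q > N + 400` with `q % 4 = 3` (Dirichlet's theorem in Mathlib:
`Nat.forall_exists_prime_gt_and_eq_mod` with modulus 4 and residue 3), `K = ZMod q`, `W = V × K × K`, `n = 19 q^2`. Levels are `≤ 338 < q`,
so `hinj` holds (`ZMod.natCast_eq_natCast_iff'`, `Nat.mod_eq_of_lt`, and injectivity of `lev : V → ℕ` by `decide`); `-1` is not a square mod `q`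
(`ZMod.exists_sq_eq_neg_one_iff` or `ZMod.mod_four_ne_three_of_sq_eq_neg_one`). `ε * n^(3/2) = q^3`, so the ceiling is `q^3`
(`Real.mul_rpow`, `Real.rpow_natCast`; `Nat.ceil_natCast`).
-/

set_option autoImplicit false

namespace Pool.Agent.T2H30.EC

open Filter Topology

/-- `ex(n, F) = Θ(n ^ α)` -/
def TuranExponent {V₀ : Type} (F : SimpleGraph V₀) (α : ℝ) : Prop :=
  ∃ c₁ c₂ : ℝ, 0 < c₁ ∧ ∀ᶠ n : ℕ in atTop, c₁ * (n : ℝ) ^ α ≤ SimpleGraph.extremalNumber n F ∧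
    (SimpleGraph.extremalNumber n F : ℝ) ≤ c₂ * (n : ℝ) ^ α

lemma lev_inj : Function.Injective lev := by decide

lemma lev_le (v : V) : lev v ≤ 338 := by
  revert v
  decide

lemma card_V : Fintype.card V = 19 := by decide

theorem final : ∃ (V₀ : Type) (_ : Fintype V₀) (F : SimpleGraph V₀) (α ε : ℝ),
    1 < α ∧ TuranExponent F α ∧ 0 < ε ∧
    ∀ N : ℕ, ∃ n ≥ N, ∃ (W : Type) (_ : Fintype W), Fintype.card W = n ∧
      ∃ (H : SimpleGraph W) (𝒞 : Finset H.Subgraph),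
        IsExactUnion F H 𝒞 ∧ 𝒞.card = ⌈ε * (n : ℝ) ^ α⌉₊ := by
  refine ⟨V, inferInstance, F, 3 / 2, (19 : ℝ) ^ (-(3 / 2) : ℝ), by norm_num, ?_, by positivity, ?_⟩
  · obtain ⟨c₁, h1, h2⟩ := lb
    obtain ⟨c₂, _, h3⟩ := ub
    refine ⟨c₁, c₂, h1, ?_⟩
    filter_upwards [h2] with n h4
    exact ⟨h4, h3 n⟩
  · intro N
    obtain ⟨q, hq, hqp, hq3⟩ := Nat.forall_exists_prime_gt_and_modEq (N + 400) (q := 4) (a := 3) (by norm_num) (by decide)
    have : Fact q.Prime := ⟨hqp⟩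
    have hq4 : q % 4 = 3 := by simpa [Nat.ModEq] using hq3
    have hq0 : 0 < q := hqp.pos
    have hinj : Function.Injective fun v : V => (lev v : ZMod q) := by
      intro v w hvw
      apply lev_inj
      have h1 := (ZMod.natCast_eq_natCast_iff' _ _ _).1 hvw
      rw [Nat.mod_eq_of_lt (by have := lev_le v; omega), Nat.mod_eq_of_lt (by have := lev_le w; omega)] at h1
      exact h1
    have h1 : ¬ IsSquare (-1 : ZMod q) := by
      rw [ZMod.exists_sq_eq_neg_one_iff]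
      simp [hq4]
    obtain ⟨𝒞, hC, hcard⟩ := exact_union hinj h1
    have hW : Fintype.card (V × ZMod q × ZMod q) = 19 * q ^ 2 := by
      rw [Fintype.card_prod, Fintype.card_prod, card_V, ZMod.card]
      ring
    refine ⟨19 * q ^ 2, ?_, V × ZMod q × ZMod q, inferInstance, hW, HG (ZMod q), 𝒞, hC, ?_⟩
    · nlinarith
    · rw [hcard, ZMod.card]
      have e : (19 : ℝ) ^ (-(3 / 2) : ℝ) * ((19 * q ^ 2 : ℕ) : ℝ) ^ (3 / 2 : ℝ) = ((q ^ 3 : ℕ) : ℝ) := by
        push_cast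
        rw [Real.mul_rpow (by norm_num) (by positivity), ← mul_assoc, ← Real.rpow_add (by norm_num)]
        rw [show -(3 / 2 : ℝ) + 3 / 2 = 0 by norm_num, Real.rpow_zero, one_mul]
        rw [← Real.rpow_natCast, ← Real.rpow_natCast, ← Real.rpow_mul (Nat.cast_nonneg q)]
        norm_num
      rw [e, Nat.ceil_natCast]

end Pool.Agent.T2H30.EC
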