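import Pool.Agent.T2H30.EC.Geo

/-!
Every copy of `F` in `HG K` lies on a null line (helper30).
-/

set_option autoImplicit false

namespace Pool.Agent.T2H30.EC

/-! finite facts on `F` -/

theorem adj_a_q (i : Fin 2) (j : Fin 11) : F.Adj (.a i) (.q j) := Or.inl rfl

theorem adj_c_q0 (k : Fin 3) : F.Adj (.q 0) (.c k) := Or.inr rfl
theorem adj_c_q1 (k : Fin 3) : F.Adj (.q 1) (.c k) := Or.inr rfl
theorem adj_d_q1 (k : Fin 3) : F.Adj (.q 1) (.d k) := Or.inr rfl
theorem adj_d_q2 (k : Fin 3) : F.Adj (.q 2) (.d k) := Or.inr rfl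

theorem deg_fact : ∀ A : V, 11 ≤ (Finset.univ.filter (fun w => F.Adj A w)).card → ∃ i, A = .a i := by
  decide +kernel

theorem codeg_fact : ∀ A B : V, A ≠ B →
    11 ≤ 2 * (Finset.univ.filter (fun w => F.Adj A w ∧ F.Adj B w)).card →
    (∃ i, A = .a i) ∧ ∃ i, B = .a i := by
  decide +kernel

theorem nb_a {i : Fin 2} {w : V} (h : F.Adj (.a i) w) : ∃ j, w = .q j := by
  cases w with
  | a _ => simp [F, R] at h
  | q j => exact ⟨j, rfl⟩
  | c _ => simp [F, R] at h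
  | d _ => simp [F, R] at h

theorem nb_q {j : Fin 11} {w : V} (h : F.Adj w (.q j)) :
    (∃ i, w = .a i) ∨ (∃ k, w = .c k ∧ (j = 0 ∨ j = 1)) ∨ (∃ k, w = .d k ∧ (j = 1 ∨ j = 2)) := by
  cases w with
  | a i => exact Or.inl ⟨i, rfl⟩
  | q j => simp [F, R] at h
  | c k => exact Or.inr (Or.inl ⟨k, rfl, by simpa [F, R] using h⟩)
  | d k => exact Or.inr (Or.inr ⟨k, rfl, by simpa [F, R] using h⟩)

section

variable {K : Type} [Field K]

theorem roots01 (i : Fin 2) : ∃ s : K, ((lev (.a i) : K) - lev (.q 0)) *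
    ((lev (.a i) : K) - lev (.q 1)) = s ^ 2 := by
  fin_cases i
  · exact ⟨8, by simp [lev]; norm_num⟩
  · exact ⟨112, by simp [lev]; norm_num⟩

theorem roots12 (i : Fin 2) : ∃ s : K, ((lev (.a i) : K) - lev (.q 1)) *
    ((lev (.a i) : K) - lev (.q 2)) = s ^ 2 := by
  fin_cases i
  · exact ⟨88, by simp [lev]; norm_num⟩
  · exact ⟨208, by simp [lev]; norm_num⟩

theorem rootsc (k : Fin 3) : ∃ s : K, ((lev (.c k) : K) - lev (.q 0)) *
    ((lev (.c k) : K) - lev (.q 1)) = -s ^ 2 := by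
  fin_cases k
  · exact ⟨12, by simp [lev]; norm_num⟩
  · exact ⟨15, by simp [lev]; norm_num⟩
  · exact ⟨12, by simp [lev]; norm_num⟩

theorem rootsd (k : Fin 3) : ∃ s : K, ((lev (.d k) : K) - lev (.q 1)) *
    ((lev (.d k) : K) - lev (.q 2)) = -s ^ 2 := by
  fin_cases k
  · exact ⟨84, by simp [lev]; norm_num⟩
  · exact ⟨105, by simp [lev]; norm_num⟩
  · exact ⟨84, by simp [lev]; norm_num⟩

/-- sign table -/
theorem table {j j' : Fin 11} (hj : j ≠ j') {u : V} (h : F.Adj u (.q j)) (h' : F.Adj u (.q j'))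
    (hu : ¬ ∃ i, u = .a i) (i : Fin 2) :
    (∃ s : K, ((lev (.a i) : K) - lev (.q j)) * ((lev (.a i) : K) - lev (.q j')) = s ^ 2) ∧
    (∃ s : K, ((lev u : K) - lev (.q j)) * ((lev u : K) - lev (.q j')) = -s ^ 2) := by
  rcases nb_q h with h1 | ⟨k, rfl, h1⟩ | ⟨k, rfl, h1⟩
  · exact absurd h1 hu
  · rcases nb_q h' with h2 | ⟨k', h2, h3⟩ | ⟨k', h2, h3⟩
    · exact absurd h2 hu
    · rcases h1 with rfl | rfl <;> rcases h3 with rfl | rfl
      · exact absurd rfl hj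
      · exact ⟨roots01 i, rootsc k⟩
      · obtain ⟨s, hs⟩ := roots01 (K := K) i
        obtain ⟨t, ht⟩ := rootsc (K := K) k
        exact ⟨⟨s, by rw [← hs]; ring⟩, ⟨t, by rw [← ht]; ring⟩⟩
      · exact absurd rfl hj
    · cases h2
  · rcases nb_q h' with h2 | ⟨k', h2, h3⟩ | ⟨k', h2, h3⟩
    · exact absurd h2 hu
    · cases h2
    · rcases h1 with rfl | rfl <;> rcases h3 with rfl | rfl
      · exact absurd rfl hj
      · exact ⟨roots12 i, rootsd k⟩
      · obtain ⟨s, hs⟩ := roots12 (K := K) i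
        obtain ⟨t, ht⟩ := rootsd (K := K) k
        exact ⟨⟨s, by rw [← hs]; ring⟩, ⟨t, by rw [← ht]; ring⟩⟩
      · exact absurd rfl hj

variable (hinj : Function.Injective fun v : V => (lev v : K)) (h1 : ¬ IsSquare (-1 : K))
  (φ : F →g HG K) (hφ : Function.Injective φ)

omit φ in
include h1 in
theorem two_ne : (2 : K) ≠ 0 := by
  intro h
  apply h1
  exact ⟨1, by linear_combination -h⟩

include hinj hφ

/-- counting common neighbours in different classes -/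
theorem count {u u' : V} (hu : (φ u).1 ≠ (φ u').1) (T C : Finset V)
    (hT : ∀ v ∈ T, F.Adj u v ∧ F.Adj u' v) (hC : ∀ v ∈ T, (φ v).1 ∈ C) : T.card ≤ 2 * C.card := by
  by_contra hcon
  obtain ⟨x, hx, hc⟩ := Finset.exists_lt_card_fiber_of_mul_lt_card_of_maps_to (n := 2) hC
    (by rw [mul_comm]; exact not_le.1 hcon)
  obtain ⟨v₁, v₂, v₃, m₁, m₂, m₃, n₁₂, n₁₃, n₂₃⟩ := Finset.two_lt_card_iff.1 hc
  rw [Finset.mem_filter] at m₁ m₂ m₃
  rcases two hinj hu (φ.map_adj (hT _ m₁.1).1) (φ.map_adj (hT _ m₁.1).2)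
    (φ.map_adj (hT _ m₂.1).1) (φ.map_adj (hT _ m₂.1).2)
    (φ.map_adj (hT _ m₃.1).1) (φ.map_adj (hT _ m₃.1).2)
    (m₁.2.trans m₂.2.symm) (m₁.2.trans m₃.2.symm) with h | h | h
  · exact n₁₂ (hφ h)
  · exact n₁₃ (hφ h)
  · exact n₂₃ (hφ h)

include h1 in
/-- five points -/
theorem five {j j' : Fin 11} (T : Finset V) (hT : ∀ v ∈ T, F.Adj (.q j) v ∧ F.Adj (.q j') v)
    (hcard : 5 ≤ T.card)
    (hA : ∀ i, ∃ i', (φ (.a i)).1 = .a i')
    (hne : (φ (.q j)).1 ≠ (φ (.q j')).1) (hN : NN (φ (.q j)) (φ (.q j')) ≠ 0) : False := by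
  obtain ⟨i', hi'⟩ := hA 0
  obtain ⟨w, hw⟩ : ∃ w, (φ (.q j)).1 = .q w :=
    nb_a (i := i') (by rw [← hi']; exact (φ.map_adj (adj_a_q 0 j)).1)
  obtain ⟨w', hw'⟩ : ∃ w, (φ (.q j')).1 = .q w :=
    nb_a (i := i') (by rw [← hi']; exact (φ.map_adj (adj_a_q 0 j')).1)
  have hC : ∀ v ∈ T, (φ v).1 ∈ ({.a 0, .a 1} : Finset V) := by
    intro v hv
    by_contra hcon
    have hv' : ¬ ∃ i, (φ v).1 = .a i := by
      rintro ⟨i, hi⟩
      apply hcon
      rw [hi]
      fin_cases i <;> simp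
    have b1 : F.Adj (φ v).1 (.q w) := by rw [← hw]; exact (φ.map_adj (hT v hv).1).1.symm
    have b2 : F.Adj (φ v).1 (.q w') := by rw [← hw']; exact (φ.map_adj (hT v hv).2).1.symm
    have hww : w ≠ w' := by
      rintro rfl
      exact hne (hw.trans hw'.symm)
    obtain ⟨⟨s, hs⟩, ⟨t, ht⟩⟩ := table (K := K) hww b1 b2 hv' i'
    refine sign hinj h1 hN (φ.map_adj (adj_a_q 0 j).symm) (φ.map_adj (adj_a_q 0 j').symm)
      (φ.map_adj (hT v hv).1) (φ.map_adj (hT v hv).2) (s := s) (t := t) ?_ ?_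
    · rw [hi', hw, hw']; exact hs
    · rw [hw, hw']; exact ht
  have := count hinj φ hφ hne T _ hT hC
  have hc2 : ({.a 0, .a 1} : Finset V).card = 2 := by decide
  rw [hc2] at this
  omega

theorem classes (h2 : (2 : K) ≠ 0) (i : Fin 2) : ∃ i', (φ (.a i)).1 = .a i' := by
  have hTc : (Finset.univ.image V.q).card = 11 := by decide +kernel
  have hT : ∀ v ∈ Finset.univ.image V.q, F.Adj (.a 0) v ∧ F.Adj (.a 1) v := by
    intro v hv
    obtain ⟨j, -, rfl⟩ := Finset.mem_image.1 hv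
    exact ⟨adj_a_q 0 j, adj_a_q 1 j⟩
  by_cases h : (φ (.a 0)).1 = (φ (.a 1)).1
  · have hne : φ (.a 0) ≠ φ (.a 1) := fun e => by simpa using hφ e
    have h3 : (Finset.univ.image V.q).card ≤
        (Finset.univ.filter (fun w => F.Adj (φ (.a 0)).1 w)).card := by
      refine Finset.card_le_card_of_injOn (fun v => (φ v).1) ?_ ?_
      · intro v hv
        have := (φ.map_adj (hT v hv).1).1
        simpa using this
      · intro v hv v' hv' e
        exact hφ (same hinj h2 h hne (φ.map_adj (hT v hv).1) (φ.map_adj (hT v hv).2)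
          (φ.map_adj (hT v' hv').1) (φ.map_adj (hT v' hv').2) e)
    rw [hTc] at h3
    obtain ⟨i', hi'⟩ := deg_fact _ h3
    have : ∀ i, (φ (.a i)).1 = .a i' := by
      intro i
      fin_cases i
      · exact hi'
      · exact h.symm.trans hi'
    exact ⟨i', this i⟩
  · have h3 := count hinj φ hφ h (Finset.univ.image V.q)
      (Finset.univ.filter (fun w => F.Adj (φ (.a 0)).1 w ∧ F.Adj (φ (.a 1)).1 w)) hT (by
        intro v hv
        rw [Finset.mem_filter]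
        exact ⟨Finset.mem_univ _, (φ.map_adj (hT v hv).1).1, (φ.map_adj (hT v hv).2).1⟩)
    rw [hTc] at h3
    obtain ⟨h4, h5⟩ := codeg_fact _ _ h h3
    fin_cases i
    · exact h4
    · exact h5

end

theorem cls {K : Type} [Field K] (hinj : Function.Injective fun v : V => (lev v : K))
    (h1 : ¬ IsSquare (-1 : K)) (φ : F →g HG K) (hφ : Function.Injective φ) :
    ∃ (x y τ : K) (σ : V → V), Function.Injective σ ∧
      ∀ v, φ v = (σ v, x + τ * lev (σ v), y + τ ^ 2 * lev (σ v)) := by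
  have h2 := two_ne h1
  have hA := classes hinj φ hφ h2
  have tc : ∀ v ∈ ({.a 0, .a 1, .c 0, .c 1, .c 2} : Finset V),
      F.Adj (.q 0) v ∧ F.Adj (.q 1) v := by decide +kernel
  have td : ∀ v ∈ ({.a 0, .a 1, .d 0, .d 1, .d 2} : Finset V),
      F.Adj (.q 1) v ∧ F.Adj (.q 2) v := by decide +kernel
  have cc : 5 ≤ ({.a 0, .a 1, .c 0, .c 1, .c 2} : Finset V).card := by decide +kernel
  have cd : 5 ≤ ({.a 0, .a 1, .d 0, .d 1, .d 2} : Finset V).card := by decide +kernel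
  have a01 : φ (.a 0) ≠ φ (.a 1) := fun e => by simpa using hφ e
  have q01 : φ (.q 0) ≠ φ (.q 1) := fun e => by simpa using hφ e
  have q12 : φ (.q 1) ≠ φ (.q 2) := fun e => by simpa using hφ e
  have q02 : φ (.q 0) ≠ φ (.q 2) := fun e => by simpa using hφ e
  have Aq : ∀ i j, (HG K).Adj (φ (.a i)) (φ (.q j)) := fun i j => φ.map_adj (adj_a_q i j)
  have hsame : (φ (.a 0)).1 ≠ (φ (.a 1)).1 := by
    intro h
    have n01 : (φ (.q 0)).1 ≠ (φ (.q 1)).1 := fun e =>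
      q01 (same hinj h2 h a01 (Aq 0 0) (Aq 1 0) (Aq 0 1) (Aq 1 1) e)
    refine five hinj h1 φ hφ _ tc cc hA n01 ?_
    intro hN
    obtain ⟨x, y, τ, o1, o2⟩ := exists_line hinj n01 hN
    have p0 := on_line hinj n01 o1 o2 (Aq 0 0).symm (Aq 0 1).symm
    have p1 := on_line hinj n01 o1 o2 (Aq 1 0).symm (Aq 1 1).symm
    exact a01 (p0.eq p1 h)
  have hN : NN (φ (.a 0)) (φ (.a 1)) = 0 := by
    by_contra hN
    have step : ∀ (j j' : Fin 11) (T : Finset V) (hT : ∀ v ∈ T, F.Adj (.q j) v ∧ F.Adj (.q j') v)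
        (hcard : 5 ≤ T.card), (φ (.q j)).1 = (φ (.q j')).1 := by
      intro j j' T hT hcard
      by_contra hne
      refine five hinj h1 φ hφ T hT hcard hA hne ?_
      intro hN'
      obtain ⟨x, y, τ, o1, o2⟩ := exists_line hinj hne hN'
      have p0 := on_line hinj hne o1 o2 (Aq 0 j).symm (Aq 0 j').symm
      have p1 := on_line hinj hne o1 o2 (Aq 1 j).symm (Aq 1 j').symm
      exact hN (p0.nn p1)
    have s1 := step 0 1 _ tc cc
    have s2 := step 1 2 _ td cd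
    rcases two hinj hsame (Aq 0 0) (Aq 1 0) (Aq 0 1) (Aq 1 1) (Aq 0 2) (Aq 1 2) s1
      (s1.trans s2) with h | h | h
    · exact q01 h
    · exact q02 h
    · exact q12 h
  obtain ⟨x, y, τ, o1, o2⟩ := exists_line hinj hsame hN
  have oq : ∀ j, On x y τ (φ (.q j)) := fun j => on_line hinj hsame o1 o2 (Aq 0 j) (Aq 1 j)
  have m01 : (φ (.q 0)).1 ≠ (φ (.q 1)).1 := fun e => q01 ((oq 0).eq (oq 1) e)
  have m12 : (φ (.q 1)).1 ≠ (φ (.q 2)).1 := fun e => q12 ((oq 1).eq (oq 2) e)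
  have on : ∀ v, On x y τ (φ v) := by
    intro v
    cases v with
    | a i =>
      fin_cases i
      · exact o1
      · exact o2
    | q j => exact oq j
    | c k => exact on_line hinj m01 (oq 0) (oq 1) (φ.map_adj (adj_c_q0 k)) (φ.map_adj (adj_c_q1 k))
    | d k => exact on_line hinj m12 (oq 1) (oq 2) (φ.map_adj (adj_d_q1 k)) (φ.map_adj (adj_d_q2 k))
  refine ⟨x, y, τ, fun v => (φ v).1, ?_, ?_⟩
  · intro v v' e
    exact hφ ((on v).eq (on v') e)
  · intro v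
    exact Prod.ext rfl (Prod.ext (on v).1 (on v).2)

end Pool.Agent.T2H30.EC
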