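import Mathlib

/-!
# Edge-disjoint copies of a bipartite graph with no further copy: definitions
-/

set_option autoImplicit false

namespace Pool.Agent.T2H30.EC

open Filter Topology

/-- the 19 vertices of the graph `F` -/
inductive V where
  | a : Fin 2 → V
  | q : Fin 11 → V
  | c : Fin 3 → V
  | d : Fin 3 → V
deriving DecidableEq, Fintype

/-- `a 0, a 1` are joined to all `q j`, the three vertices `c k` to `q 0, q 1`, the three vertices
`d k` to `q 1, q 2` -/
def R : V → V → Bool
  | .a _, .q _ => true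
  | .c _, .q j => j = 0 || j = 1
  | .d _, .q j => j = 1 || j = 2
  | _, _ => false

/-- the graph `F`: bipartite, 19 vertices, 34 edges -/
def F : SimpleGraph V where
  Adj x y := R x y = true ∨ R y x = true
  symm := ⟨fun _ _ h => h.symm⟩
  loopless := ⟨by intro x; cases x <;> simp [R]⟩

instance : DecidableRel F.Adj := fun x y => inferInstanceAs (Decidable (R x y = true ∨ R y x = true))

/-- the level of a vertex of `F` -/
def lev : V → ℕ
  | .a i => ![96, 0] i
  | .q j => ![98, 128, 338, 3, 4, 5, 6, 7, 8, 9, 10] j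
  | .c k => ![104, 113, 122] k
  | .d k => ![170, 233, 296] k

/-- The graph over a field `K` whose vertices are the points `(u, y, z)`, `u` a vertex of `F`;
`(u, y, z)` and `(w, y', z')` are adjacent if `u` and `w` are adjacent in `F` and the points
`(lev u, y, z)`, `(lev w, y', z')` of the three-dimensional space are light-like separated. -/
def HG (K : Type) [Field K] : SimpleGraph (V × K × K) where
  Adj p r := F.Adj p.1 r.1 ∧ (r.2.1 - p.2.1) ^ 2 = ((lev r.1 : K) - lev p.1) * (r.2.2 - p.2.2)
  symm := ⟨fun p r h => ⟨h.1.symm, by linear_combination h.2⟩⟩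
  loopless := ⟨fun p h => F.loopless.irrefl _ h.1⟩

/-- `𝒞` is the set of ALL copies of `F` in `H`; the copies are edge-disjoint and their union is
`H`. -/
def IsExactUnion {V₀ W : Type} (F : SimpleGraph V₀) (H : SimpleGraph W) (𝒞 : Finset H.Subgraph) :
    Prop :=
  (∀ S : H.Subgraph, S ∈ 𝒞 ↔ Nonempty (F ≃g S.coe)) ∧
  (∀ S ∈ 𝒞, ∀ T ∈ 𝒞, S ≠ T → Disjoint S.edgeSet T.edgeSet) ∧
  (⋃ S ∈ 𝒞, S.edgeSet) = H.edgeSet

end Pool.Agent.T2H30.EC
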