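import Pool.Agent.T2H30.EC.Defs

/-!
Light-like separated points over a field.
-/

set_option autoImplicit false

namespace Pool.Agent.T2H30.EC

variable {K : Type} [Field K]

/-- the null form -/
def NN (p p' : V × K × K) : K :=
  (p'.2.1 - p.2.1) ^ 2 - ((lev p'.1 : K) - lev p.1) * (p'.2.2 - p.2.2)

/-- `r` is on the null line with parameters `x, y, τ` -/
def On (x y τ : K) (r : V × K × K) : Prop :=
  r.2.1 = x + τ * lev r.1 ∧ r.2.2 = y + τ ^ 2 * lev r.1

theorem On.eq {x y τ : K} {r r' : V × K × K} (h : On x y τ r) (h' : On x y τ r') (e : r.1 = r'.1) :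
    r = r' := by
  obtain ⟨u, a, b⟩ := r
  obtain ⟨u', a', b'⟩ := r'
  simp only at e
  subst e
  obtain ⟨h1, h2⟩ := h
  obtain ⟨h3, h4⟩ := h'
  simp only at h1 h2 h3 h4
  rw [h1, h2, h3, h4]

theorem On.nn {x y τ : K} {r r' : V × K × K} (h : On x y τ r) (h' : On x y τ r') :
    NN r r' = 0 := by
  unfold NN
  rw [h.1, h.2, h'.1, h'.2]
  ring

section

variable (hinj : Function.Injective fun v : V => (lev v : K))

include hinj

theorem sub_ne {u w : V} (h : u ≠ w) : (lev u : K) - lev w ≠ 0 := by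
  intro e
  exact h (hinj (sub_eq_zero.1 e))

theorem adj_ne {p r : V × K × K} (h : (HG K).Adj p r) : (lev r.1 : K) - lev p.1 ≠ 0 :=
  sub_ne hinj (fun e => F.loopless.irrefl _ (e ▸ h.1))

omit hinj in
theorem key {p p' r : V × K × K} (h : (HG K).Adj p r) (h' : (HG K).Adj p' r) :
    ((lev r.1 : K) - lev p.1) * ((lev r.1 : K) - lev p'.1) * NN p p' =
      (((lev r.1 : K) - lev p.1) * (r.2.1 - p'.2.1) -
        ((lev r.1 : K) - lev p'.1) * (r.2.1 - p.2.1)) ^ 2 := by
  have e1 := h.2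
  have e2 := h'.2
  unfold NN
  linear_combination
    (((lev r.1 : K) - lev p.1) - ((lev r.1 : K) - lev p'.1)) * ((lev r.1 : K) - lev p'.1) * e1 -
    (((lev r.1 : K) - lev p.1) - ((lev r.1 : K) - lev p'.1)) * ((lev r.1 : K) - lev p.1) * e2

theorem eq_of_fst {p r r' : V × K × K} (h : (HG K).Adj p r) (h' : (HG K).Adj p r')
    (e : r.1 = r'.1) (ey : r.2.1 = r'.2.1) : r = r' := by
  have hm := adj_ne hinj h
  have e1 := h.2
  have e2 := h'.2
  have e3 : ((lev r.1 : K) - lev p.1) * (r.2.2 - r'.2.2) = 0 := by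
    rw [← e, ← ey] at e2
    linear_combination e2 - e1
  have e4 : r.2.2 = r'.2.2 := by
    rcases mul_eq_zero.1 e3 with h0 | h0
    · exact absurd h0 hm
    · exact sub_eq_zero.1 h0
  obtain ⟨u, a, b⟩ := r
  obtain ⟨u', a', b'⟩ := r'
  simp only at e ey e4
  rw [e, ey, e4]

/-- two points of the same class have at most one common neighbour in every class -/
theorem same {p p' r r' : V × K × K} (h2 : (2 : K) ≠ 0) (hp : p.1 = p'.1) (hne : p ≠ p')
    (h1 : (HG K).Adj p r) (h1' : (HG K).Adj p' r) (h3 : (HG K).Adj p r')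
    (h3' : (HG K).Adj p' r') (e : r.1 = r'.1) : r = r' := by
  have hm := adj_ne hinj h1
  have e1 := h1.2
  have e2 := h1'.2
  have e3 := h3.2
  have e4 := h3'.2
  rw [← hp] at e2 e4
  rw [← e] at e3 e4
  by_cases hδ : p'.2.1 - p.2.1 = 0
  · exfalso
    have h5 : p'.2.1 = p.2.1 := sub_eq_zero.1 hδ
    have h6 : ((lev r.1 : K) - lev p.1) * (p'.2.2 - p.2.2) = 0 := by
      rw [h5] at e2
      linear_combination e2 - e1
    rcases mul_eq_zero.1 h6 with h0 | h0
    · exact hm h0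
    · apply hne
      obtain ⟨u, a, b⟩ := p
      obtain ⟨u', a', b'⟩ := p'
      simp only at hp h5 h0
      rw [hp, h5, sub_eq_zero.1 h0]
  · have h5 : 2 * (p'.2.1 - p.2.1) * (r.2.1 - r'.2.1) = 0 := by
      linear_combination e1 - e2 - e3 + e4
    have h6 : r.2.1 - r'.2.1 = 0 := by
      rcases mul_eq_zero.1 h5 with h0 | h0
      · rcases mul_eq_zero.1 h0 with h7 | h7
        · exact absurd h7 h2
        · exact absurd h7 hδ
      · exact h0
    exact eq_of_fst hinj h1 h3 e (sub_eq_zero.1 h6)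

/-- two points of different classes have at most two common neighbours in every class -/
theorem two {p p' r₁ r₂ r₃ : V × K × K} (hp : p.1 ≠ p'.1)
    (h1 : (HG K).Adj p r₁) (h1' : (HG K).Adj p' r₁) (h2 : (HG K).Adj p r₂)
    (h2' : (HG K).Adj p' r₂) (h3 : (HG K).Adj p r₃) (h3' : (HG K).Adj p' r₃)
    (e2 : r₁.1 = r₂.1) (e3 : r₁.1 = r₃.1) : r₁ = r₂ ∨ r₁ = r₃ ∨ r₂ = r₃ := by
  have hd : (lev p'.1 : K) - lev p.1 ≠ 0 := sub_ne hinj hp.symm
  have k1 := key h1 h1'
  have k2 := key h2 h2'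
  have k3 := key h3 h3'
  rw [← e2] at k2
  rw [← e3] at k3
  have q2 := k1.symm.trans k2
  have q3 := k1.symm.trans k3
  have lin : ∀ r r' : V × K × K,
      ((lev r₁.1 : K) - lev p.1) * (r.2.1 - p'.2.1) - ((lev r₁.1 : K) - lev p'.1) * (r.2.1 - p.2.1) =
      ((lev r₁.1 : K) - lev p.1) * (r'.2.1 - p'.2.1) - ((lev r₁.1 : K) - lev p'.1) * (r'.2.1 - p.2.1) →
      r.2.1 = r'.2.1 := by
    intro r r' h
    have h5 : ((lev p'.1 : K) - lev p.1) * (r.2.1 - r'.2.1) = 0 := by
      linear_combination h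
    rcases mul_eq_zero.1 h5 with h0 | h0
    · exact absurd h0 hd
    · exact sub_eq_zero.1 h0
  rcases sq_eq_sq_iff_eq_or_eq_neg.1 q2 with h4 | h4
  · exact Or.inl (eq_of_fst hinj h1 h2 e2 (lin _ _ h4))
  · rcases sq_eq_sq_iff_eq_or_eq_neg.1 q3 with h5 | h5
    · exact Or.inr (Or.inl (eq_of_fst hinj h1 h3 e3 (lin _ _ h5)))
    · refine Or.inr (Or.inr (eq_of_fst hinj h2 h3 (e2.symm.trans e3) (lin _ _ ?_)))
      exact neg_injective (h4.symm.trans h5)

/-- if `p, p'` are collinear then their common neighbours are on the null line through them -/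
theorem on_line {p p' r : V × K × K} {x y τ : K} (hp : p.1 ≠ p'.1) (hx : On x y τ p)
    (hx' : On x y τ p') (h : (HG K).Adj p r) (h' : (HG K).Adj p' r) : On x y τ r := by
  have hd : (lev p'.1 : K) - lev p.1 ≠ 0 := sub_ne hinj hp.symm
  have hm := adj_ne hinj h
  have k := key h h'
  rw [hx.nn hx', mul_zero] at k
  have k2 := pow_eq_zero_iff (two_ne_zero) |>.1 k.symm
  have e1 := h.2
  rw [hx.1, hx'.1] at k2
  rw [hx.1, hx.2] at e1
  have h1 : ((lev p'.1 : K) - lev p.1) * (r.2.1 - (x + τ * lev r.1)) = 0 := by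
    linear_combination k2
  have h2 : r.2.1 = x + τ * lev r.1 := by
    rcases mul_eq_zero.1 h1 with h0 | h0
    · exact absurd h0 hd
    · exact sub_eq_zero.1 h0
  refine ⟨h2, ?_⟩
  rw [h2] at e1
  have h3 : ((lev r.1 : K) - lev p.1) * (r.2.2 - (y + τ ^ 2 * lev r.1)) = 0 := by
    linear_combination -e1
  rcases mul_eq_zero.1 h3 with h0 | h0
  · exact absurd h0 hm
  · exact sub_eq_zero.1 h0

/-- two points with `NN = 0` in different classes are on a null line -/
theorem exists_line {p p' : V × K × K} (hp : p.1 ≠ p'.1) (h : NN p p' = 0) :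
    ∃ x y τ : K, On x y τ p ∧ On x y τ p' := by
  have hd : (lev p'.1 : K) - lev p.1 ≠ 0 := sub_ne hinj hp.symm
  unfold NN at h
  set τ := (p'.2.1 - p.2.1) / ((lev p'.1 : K) - lev p.1) with hτ
  have h1 : p'.2.1 - p.2.1 = τ * ((lev p'.1 : K) - lev p.1) := by
    rw [hτ]; field_simp
  have h2 : p'.2.2 - p.2.2 = τ ^ 2 * ((lev p'.1 : K) - lev p.1) := by
    rw [h1] at h
    have h3 : ((lev p'.1 : K) - lev p.1) *
        (p'.2.2 - p.2.2 - τ ^ 2 * ((lev p'.1 : K) - lev p.1)) = 0 := by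
      linear_combination -h
    rcases mul_eq_zero.1 h3 with h0 | h0
    · exact absurd h0 hd
    · exact sub_eq_zero.1 h0
  refine ⟨p.2.1 - τ * lev p.1, p.2.2 - τ ^ 2 * lev p.1, τ, ⟨by ring, by ring⟩, ⟨?_, ?_⟩⟩
  · linear_combination h1
  · linear_combination h2

/-- the sign argument -/
theorem sign {p p' r r' : V × K × K} (hm1 : ¬ IsSquare (-1 : K)) (hN : NN p p' ≠ 0)
    (h : (HG K).Adj p r) (h' : (HG K).Adj p' r) (k : (HG K).Adj p r') (k' : (HG K).Adj p' r')
    {s t : K} (hs : ((lev r.1 : K) - lev p.1) * ((lev r.1 : K) - lev p'.1) = s ^ 2)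
    (ht : ((lev r'.1 : K) - lev p.1) * ((lev r'.1 : K) - lev p'.1) = -t ^ 2) : False := by
  have e1 := key h h'
  have e2 := key k k'
  rw [hs] at e1
  rw [ht] at e2
  have hs0 : s ≠ 0 := by
    intro h0
    rw [h0] at hs
    have : ((lev r.1 : K) - lev p.1) * ((lev r.1 : K) - lev p'.1) = 0 := by rw [hs]; ring
    rcases mul_eq_zero.1 this with h0 | h0
    · exact adj_ne hinj h h0
    · exact adj_ne hinj h' h0
  have ht0 : t ≠ 0 := by
    intro h0
    rw [h0] at ht
    have : ((lev r'.1 : K) - lev p.1) * ((lev r'.1 : K) - lev p'.1) = 0 := by rw [ht]; ring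
    rcases mul_eq_zero.1 this with h0 | h0
    · exact adj_ne hinj k h0
    · exact adj_ne hinj k' h0
  set g := (((lev r.1 : K) - lev p.1) * (r.2.1 - p'.2.1) -
        ((lev r.1 : K) - lev p'.1) * (r.2.1 - p.2.1)) with hg
  set g' := (((lev r'.1 : K) - lev p.1) * (r'.2.1 - p'.2.1) -
        ((lev r'.1 : K) - lev p'.1) * (r'.2.1 - p.2.1)) with hg'
  have hg0 : g ≠ 0 := by
    intro h0
    rw [h0] at e1
    have : s ^ 2 * NN p p' = 0 := by rw [e1]; ring
    rcases mul_eq_zero.1 this with h0 | h0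
    · exact hs0 (pow_eq_zero_iff two_ne_zero |>.1 h0)
    · exact hN h0
  apply hm1
  refine ⟨s * g' / (t * g), ?_⟩
  field_simp
  linear_combination t ^ 2 * e1 + s ^ 2 * e2

end

end Pool.Agent.T2H30.EC
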