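import Pool.Agent.T2H30.EC.Defs

/-!
PACKAGE UB (45-70 min). Upper bound for the Turan number of `F`: `ex(n, F) = O(n^(3/2))`.

Paper proof. Let `G` be an `F`-free graph on `Fin n`, `d(x, y)` = number of common neighbours. Call a pair
`w ≠ w'` heavy if `d(w, w') ≥ 19`.
(1) Let `x ≠ y` with `d(x, y) ≥ 11` and `w ∈ N(x, y)`. Then at most one `w' ∈ N(x, y)`, `w' ≠ w`, is such that
`(w, w')` is heavy: if `w', w''` are two such vertices, we find a copy of `F`:
`a 0 ↦ x`, `a 1 ↦ y`, `q 1 ↦ w`, `q 0 ↦ w'`, `q 2 ↦ w''`, `q 3, ..., q 10 ↦` eight further elements of `N(x, y)`,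
`c k ↦` three elements of `N(w, w')` not used so far (13 vertices are used so far, 2 of them are `w, w'` themselves, which are
not in `N(w, w')`, so `19 - 13 ≥ 3` are left), `d k ↦` three elements of `N(w, w'')` not used so far (16 vertices are used).
(2) So for `x ≠ y` the number of ordered pairs `(w, w')`, `w ≠ w'`, in `N(x, y)` is at most
`#{light ordered pairs in N(x, y)} + d(x, y) + 11 * 10` (the last term for `d(x, y) ≤ 10`), i.e.
`d (d - 1) ≤ light(x, y) + d + 110`. Sum over all ordered pairs `(x, y)`, `x ≠ y`: each light pair `(w, w')` lies in `N(x, y)` for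
at most `18 * 18` ordered pairs `(x, y)`, so `Σ d(x,y)^2 ≤ 324 n^2 + 2 Σ d(x,y) + 110 n^2`.
With Cauchy-Schwarz (`(Σ d)^2 ≤ n^2 Σ d^2`) `S = Σ_{x ≠ y} d(x, y)` satisfies `S^2 ≤ n^2 (434 n^2 + 2 S)`, hence `S ≤ 22 n^2`
(any constant is fine).
(3) `S = Σ_v deg(v) (deg(v) - 1)`, so `Σ_v deg(v)^2 ≤ 22 n^2 + Σ_v deg(v)` and by Cauchy-Schwarz
`(2e)^2 ≤ n (22 n^2 + 2e)`, `2e ≤ n^2`, hence `(2e)^2 ≤ 23 n^3`.
Use `SimpleGraph.extremalNumber_le_iff_of_nonneg`.
-/

set_option autoImplicit false

namespace Pool.Agent.T2H30.EC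

open Filter Topology

namespace UBAux

open Finset

set_option linter.unusedSectionVars false

variable {W : Type} [Fintype W] [DecidableEq W]

/-- common neighbours -/
def cn (G : SimpleGraph W) [DecidableRel G.Adj] (x y : W) : Finset W :=
  univ.filter fun v => G.Adj x v ∧ G.Adj y v

lemma mem_cn (G : SimpleGraph W) [DecidableRel G.Adj] {x y v : W} :
    v ∈ cn G x y ↔ G.Adj x v ∧ G.Adj y v := by
  simp [cn]

lemma exists_inj (S : Finset W) (k : ℕ) (h : k ≤ S.card) :
    ∃ e : Fin k → W, Function.Injective e ∧ ∀ i, e i ∈ S := by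
  obtain ⟨T, hTS, hTk⟩ := Finset.exists_subset_card_eq h
  let e := (T.equivFinOfCardEq hTk).symm
  refine ⟨fun i => (e i : W), ?_, fun i => hTS (e i).2⟩
  intro i j hij
  exact e.injective (Subtype.ext hij)

/-- The embedding. -/
lemma contained (G : SimpleGraph W) [DecidableRel G.Adj] {x y w w' w'' : W}
    (hxy : x ≠ y) (hN : 11 ≤ (cn G x y).card)
    (hw : w ∈ cn G x y) (hw' : w' ∈ cn G x y) (hw'' : w'' ∈ cn G x y)
    (h1 : w ≠ w') (h2 : w ≠ w'') (h3 : w' ≠ w'')
    (hh : 19 ≤ (cn G w w').card) (hh' : 19 ≤ (cn G w w'').card) : F.IsContained G := by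
  classical
  obtain ⟨e, he, heN⟩ := exists_inj (cn G x y \ {w, w', w''}) 8 (by
    have h := Finset.le_card_sdiff ({w, w', w''} : Finset W) (cn G x y)
    have h3 : ({w, w', w''} : Finset W).card ≤ 3 := Finset.card_le_three
    omega)
  set T : Finset W := {x, y, w, w', w''} ∪ Finset.univ.image e with hT
  have hTc : T.card ≤ 13 := by
    refine (Finset.card_union_le _ _).trans ?_
    have h1 : ({x, y, w, w', w''} : Finset W).card ≤ 5 := Finset.card_le_five
    have h2 : (Finset.univ.image e).card ≤ 8 := by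
      refine Finset.card_image_le.trans ?_
      simp
    omega
  obtain ⟨fc, hfc, hfcN⟩ := exists_inj (cn G w w' \ T) 3 (by
    have h := Finset.le_card_sdiff T (cn G w w')
    omega)
  set T' : Finset W := T ∪ Finset.univ.image fc with hT'
  have hTc' : T'.card ≤ 16 := by
    refine (Finset.card_union_le _ _).trans ?_
    have h2 : (Finset.univ.image fc).card ≤ 3 := by
      refine Finset.card_image_le.trans ?_
      simp
    omega
  obtain ⟨fd, hfd, hfdN⟩ := exists_inj (cn G w w'' \ T') 3 (by
    have h := Finset.le_card_sdiff T' (cn G w w'')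
    omega)
  -- the map on the vertices `q`
  let fq : Fin 11 → W := Fin.cons w' (Fin.cons w (Fin.cons w'' e))
  let fa : Fin 2 → W := ![x, y]
  have hfa : Function.Injective fa := by
    intro i j
    fin_cases i <;> fin_cases j <;> simp [fa, hxy, hxy.symm]
  have heN' : ∀ i, e i ∈ cn G x y ∧ e i ≠ w ∧ e i ≠ w' ∧ e i ≠ w'' := by
    intro i
    have := heN i
    simp only [Finset.mem_sdiff, Finset.mem_insert, Finset.mem_singleton, not_or] at this
    exact this
  have hfq : Function.Injective fq := by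
    refine Fin.cons_injective_iff.2 ⟨?_, Fin.cons_injective_iff.2 ⟨?_, Fin.cons_injective_iff.2 ⟨?_, he⟩⟩⟩
    · rintro ⟨i, hi⟩
      refine Fin.cases ?_ (fun i => ?_) i hi
      · intro h; exact h1 h
      · refine Fin.cases ?_ (fun i => ?_) i
        · intro h; exact h3 h.symm
        · intro h; exact (heN' i).2.2.1 h
    · rintro ⟨i, hi⟩
      refine Fin.cases ?_ (fun i => ?_) i hi
      · intro h; exact h2 h.symm
      · intro h; exact (heN' i).2.1 h
    · rintro ⟨i, hi⟩
      exact (heN' i).2.2.2 hi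
  have hfqN : ∀ i, fq i ∈ cn G x y := by
    intro i
    refine Fin.cases ?_ (fun i => ?_) i
    · exact hw'
    · refine Fin.cases ?_ (fun i => ?_) i
      · exact hw
      · refine Fin.cases ?_ (fun i => ?_) i
        · exact hw''
        · exact (heN' i).1
  have hfqT : ∀ i, fq i ∈ T := by
    intro i
    refine Fin.cases ?_ (fun i => ?_) i
    · change w' ∈ T; simp [hT]
    · refine Fin.cases ?_ (fun i => ?_) i
      · change w ∈ T; simp [hT]
      · refine Fin.cases ?_ (fun i => ?_) i
        · change w'' ∈ T; simp [hT]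
        · change e i ∈ T
          simp [hT]
  have hfaT : ∀ i, fa i ∈ T := by
    intro i
    fin_cases i <;> simp [fa, hT]
  have haq : ∀ i j, fa i ≠ fq j := by
    intro i j h
    have h1 := hfqN j
    rw [← h, mem_cn] at h1
    fin_cases i
    · exact G.loopless.irrefl _ h1.1
    · exact G.loopless.irrefl _ h1.2
  have hcT : ∀ i, fc i ∉ T := fun i => (Finset.mem_sdiff.1 (hfcN i)).2
  have hdT' : ∀ i, fd i ∉ T' := fun i => (Finset.mem_sdiff.1 (hfdN i)).2
  have hdT : ∀ i, fd i ∉ T := fun i h => hdT' i (Finset.mem_union_left _ h)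
  have hcT' : ∀ i, fc i ∈ T' := fun i => Finset.mem_union_right _ (by simp)
  have hac : ∀ i j, fa i ≠ fc j := fun i j h => hcT j (h ▸ hfaT i)
  have had : ∀ i j, fa i ≠ fd j := fun i j h => hdT j (h ▸ hfaT i)
  have hqc : ∀ i j, fq i ≠ fc j := fun i j h => hcT j (h ▸ hfqT i)
  have hqd : ∀ i j, fq i ≠ fd j := fun i j h => hdT j (h ▸ hfqT i)
  have hcd : ∀ i j, fc i ≠ fd j := fun i j h => hdT' j (h ▸ hcT' i)
  let f : V → W := fun v => match v with
    | .a i => fa i
    | .q j => fq j
    | .c k => fc k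
    | .d k => fd k
  have hf : Function.Injective f := by
    intro u v h
    cases u <;> cases v <;> simp only [f] at h
    · rw [hfa h]
    · exact absurd h (haq _ _)
    · exact absurd h (hac _ _)
    · exact absurd h (had _ _)
    · exact absurd h.symm (haq _ _)
    · rw [hfq h]
    · exact absurd h (hqc _ _)
    · exact absurd h (hqd _ _)
    · exact absurd h.symm (hac _ _)
    · exact absurd h.symm (hqc _ _)
    · rw [hfc h]
    · exact absurd h (hcd _ _)
    · exact absurd h.symm (had _ _)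
    · exact absurd h.symm (hqd _ _)
    · exact absurd h.symm (hcd _ _)
    · rw [hfd h]
  have hR : ∀ u v, R u v = true → G.Adj (f u) (f v) := by
    intro u v h
    cases u with
    | a i =>
      cases v with
      | q j =>
        have := (mem_cn G).1 (hfqN j)
        fin_cases i
        · exact this.1
        · exact this.2
      | _ => simp [R] at h
    | q i => cases v <;> simp [R] at h
    | c i =>
      cases v with
      | q j =>
        have hc := (mem_cn G).1 (Finset.mem_sdiff.1 (hfcN i)).1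
        simp only [R, Bool.or_eq_true, decide_eq_true_eq] at h
        rcases h with h | h
        · subst h
          exact hc.2.symm
        · subst h
          exact hc.1.symm
      | _ => simp [R] at h
    | d i =>
      cases v with
      | q j =>
        have hc := (mem_cn G).1 (Finset.mem_sdiff.1 (hfdN i)).1
        simp only [R, Bool.or_eq_true, decide_eq_true_eq] at h
        rcases h with h | h
        · subst h
          exact hc.1.symm
        · subst h
          exact hc.2.symm
      | _ => simp [R] at h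
  refine ⟨⟨⟨f, ?_⟩, hf⟩⟩
  intro u v h
  rcases h with h | h
  · exact hR u v h
  · exact (hR v u h).symm

/-- ordered pairs of distinct vertices with at most `18` common neighbours -/
def lightP (G : SimpleGraph W) [DecidableRel G.Adj] : Finset (W × W) :=
  (univ : Finset W).offDiag.filter fun p => (cn G p.1 p.2).card ≤ 18

/-- step (2) -/
lemma step2 (G : SimpleGraph W) [DecidableRel G.Adj] (hG : F.Free G) {x y : W} (hxy : x ≠ y) :
    (cn G x y).card * (cn G x y).card ≤
      ((lightP G).filter fun p => p.1 ∈ cn G x y ∧ p.2 ∈ cn G x y).card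
        + 2 * (cn G x y).card + 110 := by
  classical
  set N := cn G x y with hN
  have h1 : N.offDiag.card = N.card * N.card - N.card := Finset.offDiag_card N
  have h1' : N.card * N.card ≤ N.offDiag.card + N.card := by omega
  by_cases hd : 11 ≤ N.card
  · -- heavy pairs
    set Hv : Finset (W × W) := N.offDiag.filter fun p => ¬ (cn G p.1 p.2).card ≤ 18 with hHv
    have h2 : Hv.card ≤ N.card := by
      refine Finset.card_le_card_of_injOn Prod.fst ?_ ?_
      · intro p hp
        have := (Finset.mem_filter.1 (Finset.mem_coe.1 hp)).1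
        exact (Finset.mem_offDiag.1 this).1
      · intro p hp r hr hpr
        obtain ⟨hp1, hp2⟩ := Finset.mem_filter.1 (Finset.mem_coe.1 hp)
        obtain ⟨hr1, hr2⟩ := Finset.mem_filter.1 (Finset.mem_coe.1 hr)
        obtain ⟨hpa, hpb, hpc⟩ := Finset.mem_offDiag.1 hp1
        obtain ⟨hra, hrb, hrc⟩ := Finset.mem_offDiag.1 hr1
        by_contra hne
        have hne2 : p.2 ≠ r.2 := fun h => hne (Prod.ext hpr h)
        refine hG (contained G hxy hd hpa hpb hrb hpc (by rw [hpr]; exact hrc) hne2 ?_ ?_)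
        · omega
        · rw [hpr]; omega
    have h3 : (N.offDiag.filter fun p => (cn G p.1 p.2).card ≤ 18).card ≤
        ((lightP G).filter fun p => p.1 ∈ N ∧ p.2 ∈ N).card := by
      refine Finset.card_le_card ?_
      intro p hp
      obtain ⟨hp1, hp2⟩ := Finset.mem_filter.1 hp
      obtain ⟨hpa, hpb, hpc⟩ := Finset.mem_offDiag.1 hp1
      refine Finset.mem_filter.2 ⟨Finset.mem_filter.2 ⟨Finset.mem_offDiag.2 ⟨mem_univ _, mem_univ _, hpc⟩, hp2⟩, hpa, hpb⟩
    have h4 : (N.offDiag.filter fun p => (cn G p.1 p.2).card ≤ 18).card + Hv.card =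
        N.offDiag.card :=
      Finset.card_filter_add_card_filter_not (s := N.offDiag)
        (fun p => (cn G p.1 p.2).card ≤ 18)
    omega
  · have : N.card ≤ 10 := by omega
    nlinarith

/-- sum over pairs, light part -/
lemma step2' (G : SimpleGraph W) [DecidableRel G.Adj] :
    (∑ q ∈ (univ : Finset W).offDiag,
      ((lightP G).filter fun p => p.1 ∈ cn G q.1 q.2 ∧ p.2 ∈ cn G q.1 q.2).card)
      ≤ 324 * Fintype.card W ^ 2 := by
  classical
  have h := Finset.sum_card_bipartiteAbove_eq_sum_card_bipartiteBelow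
    (s := (univ : Finset W).offDiag) (t := lightP G)
    (fun q p => p.1 ∈ cn G q.1 q.2 ∧ p.2 ∈ cn G q.1 q.2)
  unfold Finset.bipartiteAbove Finset.bipartiteBelow at h
  rw [h]
  have h2 : ∀ p ∈ lightP G, ((univ : Finset W).offDiag.filter
      fun q => p.1 ∈ cn G q.1 q.2 ∧ p.2 ∈ cn G q.1 q.2).card ≤ 324 := by
    intro p hp
    have hp2 := (Finset.mem_filter.1 hp).2
    calc _ ≤ ((cn G p.1 p.2) ×ˢ (cn G p.1 p.2)).card := by
          refine Finset.card_le_card ?_
          intro q hq
          obtain ⟨_, h1, h2⟩ := Finset.mem_filter.1 hq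
          rw [mem_cn] at h1 h2
          rw [Finset.mem_product, mem_cn, mem_cn]
          exact ⟨⟨h1.1.symm, h2.1.symm⟩, h1.2.symm, h2.2.symm⟩
      _ ≤ 324 := by
          rw [Finset.card_product]
          nlinarith
  refine (Finset.sum_le_sum h2).trans ?_
  rw [Finset.sum_const, smul_eq_mul, mul_comm]
  refine Nat.mul_le_mul_left _ ?_
  calc (lightP G).card ≤ ((univ : Finset W) ×ˢ (univ : Finset W)).card :=
        Finset.card_le_card ((Finset.filter_subset _ _).trans (by
          intro p _; simp))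
    _ = _ := by rw [Finset.card_product, Finset.card_univ, sq]

/-- step (3): `Σ_{x ≠ y} d(x, y) = Σ_v (deg v ^ 2 - deg v)` -/
lemma step3 (G : SimpleGraph W) [DecidableRel G.Adj] :
    (∑ q ∈ (univ : Finset W).offDiag, (cn G q.1 q.2).card) =
      ∑ v : W, (G.degree v * G.degree v - G.degree v) := by
  classical
  have h := Finset.sum_card_bipartiteAbove_eq_sum_card_bipartiteBelow
    (s := (univ : Finset W).offDiag) (t := (univ : Finset W))
    (fun q v => G.Adj q.1 v ∧ G.Adj q.2 v)
  unfold Finset.bipartiteAbove Finset.bipartiteBelow at h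
  unfold cn
  rw [h]
  refine Finset.sum_congr rfl fun v _ => ?_
  rw [← SimpleGraph.card_neighborFinset_eq_degree, ← Finset.offDiag_card]
  congr 1
  ext q
  simp only [Finset.mem_filter, Finset.mem_offDiag, Finset.mem_univ, true_and,
    SimpleGraph.mem_neighborFinset]
  constructor
  · rintro ⟨h1, h2, h3⟩
    exact ⟨h2.symm, h3.symm, h1⟩
  · rintro ⟨h1, h2, h3⟩
    exact ⟨h3, h1.symm, h2.symm⟩

lemma main (G : SimpleGraph W) [DecidableRel G.Adj] (hG : F.Free G) :
    (2 * G.edgeFinset.card) ^ 2 ≤ 23 * Fintype.card W ^ 3 := by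
  classical
  set n := Fintype.card W with hn
  set S := ∑ q ∈ (univ : Finset W).offDiag, (cn G q.1 q.2).card with hS
  set S2 := ∑ q ∈ (univ : Finset W).offDiag, (cn G q.1 q.2).card ^ 2 with hS2
  have hoff : (univ : Finset W).offDiag.card ≤ n ^ 2 := by
    rw [Finset.offDiag_card, Finset.card_univ, sq]
    exact Nat.sub_le _ _
  have h1 : S2 ≤ 324 * n ^ 2 + 2 * S + 110 * n ^ 2 := by
    have h2 : S2 ≤ ∑ q ∈ (univ : Finset W).offDiag,
        (((lightP G).filter fun p => p.1 ∈ cn G q.1 q.2 ∧ p.2 ∈ cn G q.1 q.2).card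
        + 2 * (cn G q.1 q.2).card + 110) := by
      refine Finset.sum_le_sum fun q hq => ?_
      rw [sq]
      exact step2 G hG (Finset.mem_offDiag.1 hq).2.2
    rw [Finset.sum_add_distrib, Finset.sum_add_distrib, ← Finset.mul_sum, Finset.sum_const,
      smul_eq_mul] at h2
    have h3 := step2' G
    rw [← hn] at h3
    have h4 : (univ : Finset W).offDiag.card * 110 ≤ 110 * n ^ 2 := by
      rw [mul_comm]; exact Nat.mul_le_mul_left _ hoff
    omega
  have hcs : S ^ 2 ≤ n ^ 2 * S2 := by
    have h := sq_sum_le_card_mul_sum_sq (s := (univ : Finset W).offDiag)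
      (f := fun q => (cn G q.1 q.2).card)
    exact h.trans (Nat.mul_le_mul_right _ hoff)
  have h5 : S ≤ 22 * n ^ 2 := by
    by_contra hcon
    push Not at hcon
    have h6 : S ^ 2 ≤ n ^ 2 * (434 * n ^ 2 + 2 * S) := by
      refine hcs.trans (Nat.mul_le_mul_left _ ?_)
      omega
    nlinarith [sq_nonneg n, Nat.zero_le (n ^ 2)]
  have h7 : ∑ v : W, G.degree v ^ 2 ≤ S + ∑ v : W, G.degree v := by
    rw [hS, step3 G, ← Finset.sum_add_distrib]
    refine Finset.sum_le_sum fun v _ => ?_
    rw [sq]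
    omega
  have h8 : (∑ v : W, G.degree v) ^ 2 ≤ n * ∑ v : W, G.degree v ^ 2 := by
    have h := sq_sum_le_card_mul_sum_sq (s := (univ : Finset W)) (f := fun v => G.degree v)
    rwa [Finset.card_univ] at h
  have h9 : ∑ v : W, G.degree v ≤ n ^ 2 := by
    calc ∑ v : W, G.degree v ≤ ∑ _v : W, n := Finset.sum_le_sum fun v _ => by
          rw [← SimpleGraph.card_neighborFinset_eq_degree]
          exact Finset.card_le_univ _
      _ = n ^ 2 := by rw [Finset.sum_const, Finset.card_univ, smul_eq_mul, sq]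
  rw [← G.sum_degrees_eq_twice_card_edges]
  calc (∑ v : W, G.degree v) ^ 2 ≤ n * ∑ v : W, G.degree v ^ 2 := h8
    _ ≤ n * (23 * n ^ 2) := Nat.mul_le_mul_left _ (by omega)
    _ = 23 * n ^ 3 := by ring

end UBAux

theorem ub : ∃ C : ℝ, 0 < C ∧ ∀ n : ℕ,
    (SimpleGraph.extremalNumber n F : ℝ) ≤ C * (n : ℝ) ^ (3 / 2 : ℝ) := by
  refine ⟨3, by norm_num, fun n => ?_⟩
  have hnn : (0 : ℝ) ≤ 3 * (n : ℝ) ^ (3 / 2 : ℝ) := by positivity
  have key := SimpleGraph.extremalNumber_le_iff_of_nonneg (V := Fin n) F hnn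
  rw [Fintype.card_fin] at key
  rw [key]
  intro G _ hG
  have h := UBAux.main G hG
  rw [Fintype.card_fin] at h
  have h2 : (((2 * G.edgeFinset.card) ^ 2 : ℕ) : ℝ) ≤ ((23 * n ^ 3 : ℕ) : ℝ) := by
    exact_mod_cast h
  push_cast at h2
  have h3 : ((n : ℝ) ^ (3 / 2 : ℝ)) ^ 2 = (n : ℝ) ^ 3 := by
    rw [← Real.rpow_natCast, ← Real.rpow_mul (Nat.cast_nonneg n), ← Real.rpow_natCast]
    norm_num
  refine le_of_sq_le_sq ?_ hnn
  rw [mul_pow, h3]
  nlinarith [pow_nonneg (Nat.cast_nonneg (α := ℝ) n) 3]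

end Pool.Agent.T2H30.EC
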